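import Pool.Agent.Work.MP_1d4c69_co.Main

set_option autoImplicit false

open Pool.Agent.Work.MP_1d4c69_co

/-- For every `n ≥ 24` there is a connected graph on `n` vertices with multipacking number `3` and
broadcast domination number `5`. -/
theorem Pool.Agent.Results.MP_1d4c69_co.ThreeFive.result (n : ℕ) (hn : 24 ≤ n) :
    ∃ G : SimpleGraph (Fin n), G.Connected ∧ multipackingNumber G = 3 ∧ broadcastNumber G = 5 :=
  exists_graph n hn
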